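import Pool.Agent.H92.HB.Stm

/-!
# KON: compactness for blocks in finite windows
-/

set_option autoImplicit false

namespace Pool.Agent.H92.HB

theorem cloN_mono {X : Type} [CommGroup X] {d : ℕ} (τ : Fin d → X →* X) (g : ℕ → X)
    (B : ℕ → Finset ℕ) {n n' : ℕ} (h : n ≤ n') : cloN τ g B n ≤ cloN τ g B n' := by
  refine Subgroup.closure_mono ?_
  rintro y ⟨i, k, hk, rfl⟩
  exact ⟨i, k, lt_of_lt_of_le hk h, rfl⟩

theorem cloN_congr {X : Type} [CommGroup X] {d : ℕ} (τ : Fin d → X →* X) (g : ℕ → X)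
    {B B' : ℕ → Finset ℕ} {n : ℕ} (h : ∀ k, k < n → B k = B' k) :
    cloN τ g B n = cloN τ g B' n := by
  unfold cloN
  congr 1
  ext y
  constructor
  · rintro ⟨i, k, hk, rfl⟩
    exact ⟨i, k, hk, by rw [h k hk]⟩
  · rintro ⟨i, k, hk, rfl⟩
    exact ⟨i, k, hk, by rw [h k hk]⟩

theorem t_KON : S_KON := by
  intro X _ d τ L g P mono1 mono2 h
  let W : ℕ → Type := fun k => {s : Finset ℕ // s.Nonempty ∧ s ⊆ Finset.Ico (L k) (L (k + 1))}
  have hfin : ∀ k, Finite (W k) := by
    intro k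
    have : Finite {s : Finset ℕ // s ∈ (Finset.Ico (L k) (L (k + 1))).powerset} := inferInstance
    refine Finite.of_injective
      (fun s : W k => (⟨s.1, Finset.mem_powerset.2 s.2.2⟩ :
        {s : Finset ℕ // s ∈ (Finset.Ico (L k) (L (k + 1))).powerset})) ?_
    intro s t hst
    have h2 := congrArg Subtype.val hst
    exact Subtype.ext h2
  let top : ∀ k, TopologicalSpace (W k) := fun _ => ⊥
  have dis : ∀ k, DiscreteTopology (W k) := fun _ => ⟨rfl⟩
  let C : ℕ → Set (∀ k, W k) := fun n => {b | P n (cloN τ g (fun k => (b k).1) n)}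
  have hanti : ∀ n, C (n + 1) ⊆ C n := by
    intro n b hb
    exact mono1 _ _ _ (cloN_mono τ g _ (Nat.le_succ n)) (mono2 _ _ _ (Nat.le_succ n) hb)
  have hne : ∀ n, (C n).Nonempty := by
    intro n
    obtain ⟨B, hB, hP⟩ := h n
    exact ⟨fun k => ⟨B k, hB k⟩, hP⟩
  have hcl : ∀ n, IsClosed (C n) := by
    intro n
    have hC : C n = (fun (b : ∀ k, W k) (k : Fin n) => b k) ⁻¹'
        {c | ∃ b ∈ C n, ∀ k : Fin n, b k = c k} := by
      ext b
      constructor
      · intro hb
        exact ⟨b, hb, fun k => rfl⟩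
      · rintro ⟨b', hb', hbb⟩
        have h1 : cloN τ g (fun k => (b' k).1) n = cloN τ g (fun k => (b k).1) n :=
          cloN_congr τ g (fun k hk => congrArg Subtype.val (hbb ⟨k, hk⟩))
        show P n (cloN τ g (fun k => (b k).1) n)
        rw [← h1]
        exact hb'
    rw [hC]
    refine (isClosed_discrete _).preimage ?_
    exact continuous_pi fun k => continuous_apply (k : ℕ)
  obtain ⟨b, hb⟩ := IsCompact.nonempty_iInter_of_sequence_nonempty_isCompact_isClosed C hanti hne
    ((hcl 0).isCompact) hcl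
  rw [Set.mem_iInter] at hb
  exact ⟨fun k => (b k).1, fun k => (b k).2, fun n => hb n⟩

end Pool.Agent.H92.HB
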