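import Pool.Agent.H92.HB.Stm
import Pool.Agent.H6.HB.Kon

/-!
# ALGR: the algebra of the recursive choice of blocks
-/

set_option autoImplicit false

open scoped Classical

namespace Pool.Agent.H92.HB

open Pool.Agent.H92 (clo)

theorem clo_cloN {X : Type} [CommGroup X] {d : ℕ} (τ : Fin d → X →* X) (g : ℕ → X)
    (B : ℕ → Finset ℕ) {x : X} (hx : x ∈ clo τ g B) : ∃ n, x ∈ cloN τ g B n := by
  refine Subgroup.closure_induction (p := fun x _ => ∃ n, x ∈ cloN τ g B n) ?_ ?_ ?_ ?_ hx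
  · rintro y ⟨i, k, rfl⟩
    exact ⟨k + 1, Subgroup.subset_closure ⟨i, k, Nat.lt_succ_self k, rfl⟩⟩
  · exact ⟨0, Subgroup.one_mem _⟩
  · rintro a b _ _ ⟨m, hm⟩ ⟨n, hn⟩
    exact ⟨max m n, Subgroup.mul_mem _ (cloN_mono τ g B (le_max_left m n) hm)
      (cloN_mono τ g B (le_max_right m n) hn)⟩
  · rintro a _ ⟨m, hm⟩
    exact ⟨m, Subgroup.inv_mem _ hm⟩

theorem fin_cloN {X : Type} [CommGroup X] {d : ℕ} (τ : Fin d → X →* X) (g : ℕ → X)
    (B : ℕ → Finset ℕ) (H : Subgroup X) (hf : Finite H) (hH : H ≤ clo τ g B) :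
    ∃ n, H ≤ cloN τ g B n := by
  have h1 : ∀ x : H, ∃ n, (x : X) ∈ cloN τ g B n := fun x => clo_cloN τ g B (hH x.2)
  choose N hN using h1
  obtain ⟨M, hM⟩ := (Set.finite_range N).bddAbove
  refine ⟨M, fun x hx => ?_⟩
  exact cloN_mono τ g B (hM ⟨⟨x, hx⟩, rfl⟩) (hN ⟨x, hx⟩)

/-- the group generated by the images of the first `n` terms -/
def gen {X : Type} [CommGroup X] {d : ℕ} (τ : Fin d → X →* X) (g : ℕ → X) (n : ℕ) :
    Subgroup X := Subgroup.closure {y | ∃ i j, j < n ∧ y = τ i (g j)}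

theorem gen_finite {X : Type} [CommGroup X] {d : ℕ} (τ : Fin d → X →* X) (g : ℕ → X) (n : ℕ)
    {q : ℕ} (hq : 0 < q) (hX : ∀ x : X, x ^ q = 1) : Finite (gen τ g n) := by
  have hfin : ({y | ∃ i j, j < n ∧ y = τ i (g j)} : Set X).Finite := by
    refine (Set.finite_range (fun a : Fin d × Fin n => τ a.1 (g a.2))).subset ?_
    rintro y ⟨i, j, hj, rfl⟩
    exact ⟨(i, ⟨j, hj⟩), rfl⟩
  have : Group.FG (gen τ g n) := by
    rw [Group.fg_iff_subgroup_fg]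
    exact ⟨hfin.toFinset, by rw [hfin.coe_toFinset]; rfl⟩
  refine CommGroup.finite_of_fg_torsion _ ?_
  intro x
  rw [isOfFinOrder_iff_pow_eq_one]
  exact ⟨q, hq, Subtype.ext (hX x)⟩

theorem gen_stable {X : Type} [CommGroup X] {d : ℕ} (τ : Fin d → X →* X) (g : ℕ → X) (n : ℕ)
    (hτ : ∀ i j, ∃ k, ∀ x, τ i (τ j x) = τ k x) (i : Fin d) {x : X} (hx : x ∈ gen τ g n) :
    τ i x ∈ gen τ g n := by
  refine Subgroup.closure_induction (p := fun x _ => τ i x ∈ gen τ g n) ?_ ?_ ?_ ?_ hx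
  · rintro y ⟨i', j, hj, rfl⟩
    obtain ⟨k, hk⟩ := hτ i i'
    rw [hk]
    exact Subgroup.subset_closure ⟨k, j, hj, rfl⟩
  · rw [map_one]
    exact Subgroup.one_mem _
  · intro a b _ _ ha hb
    rw [map_mul]
    exact Subgroup.mul_mem _ ha hb
  · intro a _ ha
    rw [map_inv]
    exact Subgroup.inv_mem _ ha

theorem t_ALGR (hR : S_RAM) (hK : S_KON) : S_ALGR := by
  intro p hp e v d
  obtain ⟨L, hL⟩ := hR p hp e v d
  refine ⟨L, ?_⟩
  intro X _ hX P mono1 mono2 key τ hi0 hτ g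
  obtain ⟨i0, h0⟩ := hi0
  have hLs : StrictMono L := by
    obtain ⟨B, hB, _⟩ := hL (⊥ : Subgroup X) (fun x => Subtype.ext (hX x)) (fun _ => 0)
      (fun _ => MonoidHom.id _) (fun _ => 1)
    refine strictMono_nat_of_lt_succ fun k => ?_
    obtain ⟨⟨a, ha⟩, h2⟩ := hB k
    have h3 := Finset.mem_Ico.1 (h2 ha)
    exact lt_of_le_of_lt h3.1 h3.2
  have hstage : ∀ n, ∃ B : ℕ → Finset ℕ,
      (∀ k, (B k).Nonempty ∧ B k ⊆ Finset.Ico (L k) (L (k + 1))) ∧ P n (cloN τ g B n) := by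
    intro n
    have hF : Finite (gen τ g (L n)) := gen_finite τ g (L n) (pow_pos hp.pos e) hX
    obtain ⟨θ, hθ⟩ := key n (gen τ g (L n)) hF
    let τ' : Fin d → (gen τ g (L n)) →* (gen τ g (L n)) := fun i =>
      ((τ i).comp (gen τ g (L n)).subtype).codRestrict (gen τ g (L n))
        (fun x => gen_stable τ g (L n) hτ i x.2)
    have hg : ∀ j, j < L n → g j ∈ gen τ g (L n) := fun j hj =>
      Subgroup.subset_closure ⟨i0, j, hj, (h0 _).symm⟩
    let g' : ℕ → gen τ g (L n) := fun j => if h : j < L n then ⟨g j, hg j h⟩ else 1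
    obtain ⟨B, hB, hB2⟩ := hL (gen τ g (L n)) (fun x => Subtype.ext (hX x)) θ τ' g'
    refine ⟨B, hB, mono1 _ _ _ ?_ (hθ (clo τ' g' B) hB2)⟩
    unfold cloN
    rw [Subgroup.closure_le]
    rintro y ⟨i, k, hk, rfl⟩
    refine ⟨τ' i (∏ j ∈ B k, g' j), Subgroup.subset_closure ⟨i, k, rfl⟩, ?_⟩
    show τ i ((∏ j ∈ B k, g' j : gen τ g (L n)) : X) = _
    congr 1
    rw [Subgroup.val_finset_prod]
    refine Finset.prod_congr rfl fun j hj => ?_
    have h1 := Finset.mem_Ico.1 ((hB k).2 hj)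
    have h2 : j < L n := lt_of_lt_of_le h1.2 (hLs.monotone hk)
    show ((if h : j < L n then (⟨g j, hg j h⟩ : gen τ g (L n)) else 1 : gen τ g (L n)) : X) = _
    rw [dif_pos h2]
  obtain ⟨B, hB, hP⟩ := hK X d τ L g P mono1 mono2 hstage
  refine ⟨B, hB, ?_⟩
  intro M H hf hH
  obtain ⟨n, hn⟩ := fin_cloN τ g B H hf hH
  refine mono1 _ _ _ (hn.trans (cloN_mono τ g B (le_max_left n M))) ?_
  exact mono2 _ _ _ (le_max_right n M) (hP (max n M))

end Pool.Agent.H92.HB
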